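import Pool.Agent.Helper57.IA.St

set_option autoImplicit false

namespace Pool.Agent.Helper39.IA57

open Finset Pool.Agent.Helper93.IA Pool.Agent.Helper57.IA

section

variable {ι Z : Type}

private noncomputable def gg (i1 i2 : Z → ι) (z : Z) (σ : ι → Bool) : ℝ :=
  if σ (i1 z) = true ∧ σ (i2 z) = true then 1 else 0

private theorem gg_range (i1 i2 : Z → ι) (z : Z) (σ : ι → Bool) :
    0 ≤ gg i1 i2 z σ ∧ gg i1 i2 z σ ≤ 1 := by
  unfold gg
  split_ifs <;> norm_num

private theorem cnt_sum (i1 i2 : Z → ι) (S : Finset Z) (σ : ι → Bool) :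
    cnt i1 i2 S σ = ∑ z ∈ S, gg i1 i2 z σ := by
  unfold cnt gg
  rw [Finset.sum_boole]

private theorem ex_cnt [Fintype ι] [DecidableEq ι] (p : ι → ℝ) (i1 i2 : Z → ι) (S : Finset Z) :
    Ex (wB p) (cnt i1 i2 S) = mean p i1 i2 S := by
  have h : cnt i1 i2 S = fun σ => ∑ z ∈ S, gg i1 i2 z σ := by
    funext σ
    exact cnt_sum i1 i2 S σ
  rw [h, ex_sum]
  unfold mean
  refine sum_congr rfl fun z _ => ?_
  split_ifs with hz
  · rw [← ex_bit p (i1 z)]
    congr 1
    funext σ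
    unfold gg
    rw [← hz]
    simp
  · rw [← ex_two p (i1 z) (i2 z) hz]
    rfl

private theorem uniq (i1 i2 : Z → ι) (h1 : Function.Injective i1) (h2 : Function.Injective i2)
    (h : (∀ z, i1 z = i2 z) ∨ ∀ z z', i1 z ≠ i2 z') (i : ι) (z z' : Z)
    (hz : i1 z = i ∨ i2 z = i) (hz' : i1 z' = i ∨ i2 z' = i) : z = z' := by
  rcases hz with hz | hz <;> rcases hz' with hz' | hz'
  · exact h1 (hz.trans hz'.symm)
  · rcases h with h | h
    · exact h2 ((h z).symm.trans (hz.trans hz'.symm))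
    · exact absurd (hz.trans hz'.symm) (h z z')
  · rcases h with h | h
    · exact h1 ((h z).trans (hz.trans hz'.symm))
    · exact absurd (hz'.trans hz.symm) (h z' z)
  · exact h2 (hz.trans hz'.symm)

private theorem gg_upd [DecidableEq ι] (i1 i2 : Z → ι) (z : Z) (i : ι) (σ : ι → Bool) (u u' : Bool)
    (h : ¬ (i1 z = i ∨ i2 z = i)) :
    gg i1 i2 z (Function.update σ i u) = gg i1 i2 z (Function.update σ i u') := by
  push Not at h
  unfold gg
  rw [Function.update_of_ne h.1, Function.update_of_ne h.2, Function.update_of_ne h.1,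
    Function.update_of_ne h.2]

open Classical in
private noncomputable def vv (i1 i2 : Z → ι) (S : Finset Z) (i : ι) : ℝ :=
  if ∃ z ∈ S, i1 z = i ∨ i2 z = i then 1 else 0

private theorem vv_range (i1 i2 : Z → ι) (S : Finset Z) (i : ι) :
    0 ≤ vv i1 i2 S i ∧ vv i1 i2 S i ≤ 1 ∧ vv i1 i2 S i ^ 2 = vv i1 i2 S i := by
  unfold vv
  split_ifs <;> norm_num

private theorem osc [DecidableEq ι] (i1 i2 : Z → ι) (h1 : Function.Injective i1)
    (h2 : Function.Injective i2)
    (h : (∀ z, i1 z = i2 z) ∨ ∀ z z', i1 z ≠ i2 z') (S : Finset Z) (i : ι) (σ : ι → Bool)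
    (u u' : Bool) :
    |cnt i1 i2 S (Function.update σ i u) - cnt i1 i2 S (Function.update σ i u')| ≤
      vv i1 i2 S i := by
  rw [cnt_sum, cnt_sum, ← sum_sub_distrib]
  by_cases hz : ∃ z ∈ S, i1 z = i ∨ i2 z = i
  · obtain ⟨z0, hz0, hz1⟩ := hz
    have hv : vv i1 i2 S i = 1 := by
      unfold vv
      rw [if_pos ⟨z0, hz0, hz1⟩]
    rw [hv, sum_eq_single z0]
    · have a1 := gg_range i1 i2 z0 (Function.update σ i u)
      have a2 := gg_range i1 i2 z0 (Function.update σ i u')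
      rw [abs_le]
      constructor <;> linarith [a1.1, a1.2, a2.1, a2.2]
    · intro z _ hne
      rw [gg_upd i1 i2 z i σ u u', sub_self]
      intro hc
      exact hne (uniq i1 i2 h1 h2 h i z z0 hc hz1)
    · intro hc
      exact absurd hz0 hc
  · rw [sum_eq_zero]
    · rw [abs_zero]
      exact (vv_range i1 i2 S i).1
    · intro z hzS
      rw [gg_upd i1 i2 z i σ u u', sub_self]
      intro hc
      exact hz ⟨z, hzS, hc⟩

private theorem vv_sum [Fintype ι] [DecidableEq ι] (i1 i2 : Z → ι) (S : Finset Z) :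
    ∑ i, vv i1 i2 S i ≤ 2 * (S.card : ℝ) := by
  classical
  have h1 : ∑ i, vv i1 i2 S i =
      ((univ.filter fun i => ∃ z ∈ S, i1 z = i ∨ i2 z = i).card : ℝ) := by
    rw [← Finset.sum_boole]
    refine sum_congr rfl fun i _ => ?_
    unfold vv
    congr
  have h2 : (univ.filter fun i => ∃ z ∈ S, i1 z = i ∨ i2 z = i) ⊆ S.image i1 ∪ S.image i2 := by
    intro i hi
    obtain ⟨z, hz, hzi⟩ := (mem_filter.1 hi).2
    rw [mem_union, mem_image, mem_image]
    rcases hzi with hzi | hzi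
    · exact Or.inl ⟨z, hz, hzi⟩
    · exact Or.inr ⟨z, hz, hzi⟩
  have h3 : (univ.filter fun i => ∃ z ∈ S, i1 z = i ∨ i2 z = i).card ≤ S.card + S.card :=
    (card_le_card h2).trans ((card_union_le _ _).trans
      (Nat.add_le_add card_image_le card_image_le))
  rw [h1]
  have h4 : ((univ.filter fun i => ∃ z ∈ S, i1 z = i ∨ i2 z = i).card : ℝ) ≤
      ((S.card + S.card : ℕ) : ℝ) := by exact_mod_cast h3
  push_cast at h4
  linarith

private theorem tail (hBRN : StBRN) [Fintype ι] [DecidableEq ι] (p : ι → ℝ)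
    (hp : ∀ i, 0 ≤ p i ∧ p i ≤ 1) (f : (ι → Bool) → ℝ) (v : ι → ℝ)
    (hv : ∀ i, 0 ≤ v i ∧ v i ≤ 1 ∧ v i ^ 2 = v i)
    (ho : ∀ i σ u u', |f (Function.update σ i u) - f (Function.update σ i u')| ≤ v i)
    (N l t : ℝ) (hN : ∑ i, v i ≤ 2 * N) (hl : 0 ≤ l) (hl1 : l ≤ 1) :
    Pr (wB p) (fun σ => Ex (wB p) f + t ≤ f σ) ≤ Real.exp (-l * t + 2 * l ^ 2 * N) := by
  classical
  have h := hBRN ι (fun _ => Bool) (wB p) f 1 t l v (wB_nonneg p hp) (wB_sum p)
    (fun i σ u u' => (ho i σ u u').trans (hv i).2.1) (fun i σ => ⟨f (Function.update σ i false), by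
      have h1 : ∀ u : Bool, wB p i u * (f (Function.update σ i u) -
          f (Function.update σ i false)) ^ 2 ≤ wB p i u * v i := by
        intro u
        apply mul_le_mul_of_nonneg_left _ (wB_nonneg p hp i u)
        rw [← (hv i).2.2, ← sq_abs]
        exact pow_le_pow_left₀ (abs_nonneg _) (ho i σ u false) 2
      calc _ ≤ ∑ u, wB p i u * v i := sum_le_sum fun u _ => h1 u
        _ = v i := by rw [← sum_mul, wB_sum, one_mul]⟩) hl (by linarith)
  have h2 : Pr (wB p) (fun σ => Ex (wB p) f + t ≤ f σ) =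
      Ex (wB p) (fun σ => if Ex (wB p) f + t ≤ f σ then 1 else 0) := by
    unfold Pr
    congr 1
  rw [h2]
  refine h.trans (Real.exp_le_exp.2 ?_)
  have h3 : l ^ 2 * ∑ i, v i ≤ l ^ 2 * (2 * N) := mul_le_mul_of_nonneg_left hN (sq_nonneg l)
  linarith

end

theorem hCNT : StCNT := by
  intro hBRN ι Z _ _ p i1 i2 S l t hp h1 h2 h hl hl1
  have hE := ex_cnt p i1 i2 S
  have hv := vv_range i1 i2 S
  have ho := osc i1 i2 h1 h2 h S
  have hN := vv_sum i1 i2 S
  have a1 := tail hBRN p hp (cnt i1 i2 S) (vv i1 i2 S) hv ho S.card l t hN hl hl1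
  have a2 := tail hBRN p hp (fun σ => - cnt i1 i2 S σ) (vv i1 i2 S) hv (fun i σ u u' => by
    have h3 := ho i σ u' u
    have h4 : -cnt i1 i2 S (Function.update σ i u) - -cnt i1 i2 S (Function.update σ i u') =
      cnt i1 i2 S (Function.update σ i u') - cnt i1 i2 S (Function.update σ i u) := by ring
    rw [h4]
    exact h3) S.card l t hN hl hl1
  rw [ex_neg, hE] at a2
  rw [hE] at a1
  have b1 := pr_mono (wB p) (wB_nonneg p hp)
    (fun σ => t < |cnt i1 i2 S σ - mean p i1 i2 S|)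
    (fun σ => mean p i1 i2 S + t ≤ cnt i1 i2 S σ ∨ -mean p i1 i2 S + t ≤ -cnt i1 i2 S σ) (by
      intro σ hσ
      rcases lt_abs.1 hσ with h5 | h5
      · left; linarith
      · right; linarith)
  have b2 := pr_or (wB p) (wB_nonneg p hp) (fun σ => mean p i1 i2 S + t ≤ cnt i1 i2 S σ)
    (fun σ => -mean p i1 i2 S + t ≤ -cnt i1 i2 S σ)
  linarith

end Pool.Agent.Helper39.IA57

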